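import Pool.Agent.H466.HP.Stm4

/-!
# HP-INTQ (helper287, for helper466): integration over the windows with several bad sets
-/

set_option autoImplicit false

namespace Pool.Agent.H287.HP

open MeasureTheory Set Filter Topology
open Pool.Agent.H466.HP

theorem bad_int (Bad : Set ℝ) (T1 T2 β : ℝ) (hβ : 0 ≤ β) (hB : volume Bad ≤ ENNReal.ofReal β) :
    (∫ t in Icc T1 T2, (toMeasurable volume Bad).indicator (1 : ℝ → ℝ) t) ≤ β := by
  rw [integral_indicator_one (measurableSet_toMeasurable _ _)]
  have h1 : (volume.restrict (Icc T1 T2)) (toMeasurable volume Bad) ≤ ENNReal.ofReal β :=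
    (Measure.restrict_apply_le _ _).trans ((measure_toMeasurable Bad).le.trans hB)
  exact ENNReal.toReal_le_of_le_ofReal hβ h1

theorem one_int (T1 T2 : ℝ) : IntegrableOn (1 : ℝ → ℝ) (Icc T1 T2) := by
  have : IntegrableOn (fun _ : ℝ => (1 : ℝ)) (Icc T1 T2) := integrableOn_const (by simp)
  exact this

theorem intq : S_INTQ := by
  intro ι Z m γ J Irr a β T1 T2 h hT hh hZ hab hB hout hin
  classical
  have hsum : ∀ t : ℝ, ∑ i ∈ Z with |γ i - t| ≤ h, m i
      = ∑ i ∈ Z, m i * (Icc (γ i - h) (γ i + h)).indicator (1 : ℝ → ℝ) t := by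
    intro t
    rw [Finset.sum_filter]
    refine Finset.sum_congr rfl fun i _ => ?_
    by_cases hi : |γ i - t| ≤ h
    · have h3 := abs_le.mp hi
      rw [if_pos hi, indicator_of_mem (by constructor <;> linarith [h3.1, h3.2])]
      simp
    · rw [if_neg hi, indicator_of_notMem]
      · simp
      · intro hm
        apply hi
        rw [abs_le]
        constructor <;> linarith [hm.1, hm.2]
  have hio : ∀ i, IntegrableOn (fun t => m i * (Icc (γ i - h) (γ i + h)).indicator (1 : ℝ → ℝ) t)
      (Icc T1 T2) := fun i => ((one_int T1 T2).indicator measurableSet_Icc).const_mul _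
  have hint : IntegrableOn (fun t => ∑ i ∈ Z, m i *
      (Icc (γ i - h) (γ i + h)).indicator (1 : ℝ → ℝ) t) (Icc T1 T2) :=
    integrable_finsetSum _ fun i _ => hio i
  have hjo : ∀ j, IntegrableOn (fun t => a j *
      (toMeasurable volume (Irr j)).indicator (1 : ℝ → ℝ) t) (Icc T1 T2) := fun j =>
    ((one_int T1 T2).indicator (measurableSet_toMeasurable _ _)).const_mul _
  have hjnt : IntegrableOn (fun t => ∑ j ∈ Finset.range J, a j *
      (toMeasurable volume (Irr j)).indicator (1 : ℝ → ℝ) t) (Icc T1 T2) :=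
    integrable_finsetSum _ fun j _ => hjo j
  have hnn : ∀ (j : ℕ) (t : ℝ),
      0 ≤ a j * (toMeasurable volume (Irr j)).indicator (1 : ℝ → ℝ) t := fun j t =>
    mul_nonneg (hab j).1 (indicator_nonneg (fun _ _ => zero_le_one) t)
  have hpt : ∀ t ∈ Icc T1 T2, ∑ i ∈ Z, m i *
      (Icc (γ i - h) (γ i + h)).indicator (1 : ℝ → ℝ) t ≤
      ∑ j ∈ Finset.range J, a j * (toMeasurable volume (Irr j)).indicator (1 : ℝ → ℝ) t := by
    intro t ht
    rw [← hsum]
    by_cases hex : ∃ j0 ∈ Finset.range J, t ∈ Irr j0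
    · obtain ⟨j0, hj0, htj0⟩ := hex
      obtain ⟨j, hj, htj, hle⟩ := hin t ht j0 hj0 htj0
      refine hle.trans ?_
      have h1 : a j = a j * (toMeasurable volume (Irr j)).indicator (1 : ℝ → ℝ) t := by
        rw [indicator_of_mem (subset_toMeasurable _ _ htj), Pi.one_apply, mul_one]
      rw [h1]
      exact Finset.single_le_sum
        (f := fun j => a j * (toMeasurable volume (Irr j)).indicator (1 : ℝ → ℝ) t)
        (fun j _ => hnn j t) hj
    · refine (hout t ht fun j hj htj => hex ⟨j, hj, htj⟩).trans ?_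
      exact Finset.sum_nonneg fun j _ => hnn j t
  have h3 := setIntegral_mono_on hint hjnt measurableSet_Icc hpt
  rw [integral_finsetSum _ fun i _ => hio i, integral_finsetSum _ fun j _ => hjo j] at h3
  refine le_trans ?_ (h3.trans (Finset.sum_le_sum fun j hj => ?_))
  · rw [Finset.mul_sum]
    refine Finset.sum_le_sum fun i hi => ?_
    obtain ⟨hm, ha, hb⟩ := hZ i hi
    rw [integral_const_mul, mul_comm]
    refine mul_le_mul_of_nonneg_left ?_ hm
    rw [integral_indicator_one measurableSet_Icc, measureReal_restrict_apply measurableSet_Icc,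
      inter_eq_left.mpr (Icc_subset_Icc (by linarith) (by linarith)),
      Real.volume_real_Icc_of_le (by linarith)]
    linarith
  · rw [integral_const_mul]
    exact mul_le_mul_of_nonneg_left (bad_int _ T1 T2 (β j) (hab j).2 (hB j hj)) (hab j).1

end Pool.Agent.H287.HP
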